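import Mathlib

namespace Pool.Agent.Results.MP_07d99b_al.Example

open MvPolynomial

/-- Conditions (a)-(e) for a polynomial map given by `p 0, ..., p (n-1)` (so `p i` is the
polynomial numbered `i + 1` in the problem). -/
def Good (n : ℕ) (p : Fin n → MvPolynomial (Fin n) ℝ) : Prop :=
  (∀ i, eval 0 (p i) = 0) ∧
  (∀ i, (p i).totalDegree ≤ i.val + 1) ∧
  {x : Fin n → ℝ | ∀ i, eval x (p i) = 0}.Infinite ∧
  (∀ s : Finset (Fin n), 1 ≤ s.card → s.card < n →
    s.card + 1 ≤ (s.biUnion fun i => (p i).vars).card) ∧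
  ∀ i, ∀ m ∈ (p i).support, coeff m (p i) = 1 ∨ coeff m (p i) = -1

noncomputable def m1 : Fin 3 →₀ ℕ := Finsupp.single 0 1
noncomputable def m2 : Fin 3 →₀ ℕ := Finsupp.single 1 1
noncomputable def m3 : Fin 3 →₀ ℕ := Finsupp.single 1 1 + Finsupp.single 2 1
noncomputable def m4 : Fin 3 →₀ ℕ := Finsupp.single 0 1 + Finsupp.single 1 2
noncomputable def m5 : Fin 3 →₀ ℕ := Finsupp.single 1 1 + Finsupp.single 2 2

noncomputable def P : Fin 3 → MvPolynomial (Fin 3) ℝ :=
  ![monomial m1 1 + monomial m2 1, monomial m3 1, monomial m4 (-1) + monomial m5 (-1)]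

theorem ne12 : m1 ≠ m2 := fun h => by simpa [m1, m2] using DFunLike.congr_fun h 0
theorem ne45 : m4 ≠ m5 := fun h => by simpa [m4, m5] using DFunLike.congr_fun h 0

theorem ev0 (x : Fin 3 → ℝ) : eval x (P 0) = x 0 + x 1 := by
  simp [P, m1, m2, eval_monomial]
theorem ev1 (x : Fin 3 → ℝ) : eval x (P 1) = x 1 * x 2 := by
  simp [P, m3, eval_monomial, Finsupp.prod_add_index', pow_add]
theorem ev2 (x : Fin 3 → ℝ) : eval x (P 2) = -(x 0 * x 1 ^ 2) - x 1 * x 2 ^ 2 := by
  simp [P, m4, m5, eval_monomial, Finsupp.prod_add_index', pow_add, sub_eq_add_neg]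

theorem two (a b : Fin 3 →₀ ℕ) (h : a ≠ b) (c : ℝ) (hc : c ≠ 0) :
    (monomial a c + monomial b c : MvPolynomial (Fin 3) ℝ).support = {a, b} := by
  ext m
  simp only [mem_support_iff, coeff_add, coeff_monomial, Finset.mem_insert, Finset.mem_singleton]
  by_cases h1 : a = m <;> by_cases h2 : b = m
  · exact absurd (h1.trans h2.symm) h
  · simp [h1, h2, hc]
  · simp [h1, h2, hc]
  · simp [h1, h2, Ne.symm h1, Ne.symm h2]

theorem s0 : (P 0).support = {m1, m2} := two _ _ ne12 1 one_ne_zero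
theorem s1 : (P 1).support = {m3} := by
  show (monomial m3 (1 : ℝ)).support = _
  rw [support_monomial, if_neg one_ne_zero]
theorem s2 : (P 2).support = {m4, m5} := two _ _ ne45 (-1) (by norm_num)

theorem v0 : (P 0).vars = {0, 1} := by
  ext i; rw [mem_vars_iff_mem_support, s0]; fin_cases i <;> simp [m1, m2]
theorem v1 : (P 1).vars = {1, 2} := by
  ext i; rw [mem_vars_iff_mem_support, s1]; fin_cases i <;> simp [m3]
theorem v2 : (P 2).vars = {0, 1, 2} := by
  ext i; rw [mem_vars_iff_mem_support, s2]; fin_cases i <;> simp [m4, m5]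

theorem quartic (a b c : ℝ) (hb : b ≠ 0) : ∃ t : ℝ, t ≠ 0 ∧ t ^ 4 - a * t ^ 3 - c * t - b ^ 2 = 0 := by
  set T := |a| + |c| + b ^ 2 + 1 with hT
  have ha := le_abs_self a
  have hc := le_abs_self c
  have ha0 := abs_nonneg a
  have hc0 := abs_nonneg c
  have hb0 : 0 < b ^ 2 := by positivity
  have hT1 : 1 ≤ T := by linarith
  have hcont : ContinuousOn (fun t : ℝ => t ^ 4 - a * t ^ 3 - c * t - b ^ 2) (Set.Icc 0 T) := by
    fun_prop
  have h3 : T ≤ T ^ 3 := by nlinarith [mul_self_nonneg T, mul_nonneg (sub_nonneg.2 hT1) (sub_nonneg.2 hT1)]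
  have hpos : 0 ≤ T ^ 4 - a * T ^ 3 - c * T - b ^ 2 := by
    have e : T ^ 4 = (|a| + |c| + b ^ 2 + 1) * T ^ 3 := by rw [← hT]; ring
    have hT3 : 1 ≤ T ^ 3 := by linarith
    rw [e]
    nlinarith [mul_le_mul_of_nonneg_right ha (by linarith : 0 ≤ T ^ 3),
      mul_le_mul_of_nonneg_left h3 hc0, mul_le_mul_of_nonneg_right hc (by linarith : 0 ≤ T),
      mul_le_mul_of_nonneg_left hT3 hb0.le]
  obtain ⟨t, _, ht⟩ := intermediate_value_Icc (by linarith : (0 : ℝ) ≤ T) hcont
    (show (0 : ℝ) ∈ Set.Icc _ _ from ⟨by simp; positivity, hpos⟩)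
  refine ⟨t, ?_, ht⟩
  rintro rfl
  simp at ht
  exact hb ht

theorem cubic (a c : ℝ) : ∃ t : ℝ, t ^ 3 - a * t ^ 2 = c := by
  set T := |a| + |c| + 1 with hT
  have ha := le_abs_self a
  have ha' := neg_abs_le a
  have hc := le_abs_self c
  have hc' := neg_abs_le c
  have ha0 := abs_nonneg a
  have hc0 := abs_nonneg c
  have hT1 : 1 ≤ T := by linarith
  have h2 : 1 ≤ T ^ 2 := by nlinarith
  have hcont : ContinuousOn (fun t : ℝ => t ^ 3 - a * t ^ 2) (Set.Icc (-T) T) := by fun_prop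
  have e : T ^ 3 = (|a| + |c| + 1) * T ^ 2 := by rw [← hT]; ring
  obtain ⟨t, _, ht⟩ := intermediate_value_Icc (by linarith : -T ≤ T) hcont
    (show c ∈ Set.Icc _ _ from ⟨by
      have e2 : (-T) ^ 3 - a * (-T) ^ 2 = -T ^ 3 - a * T ^ 2 := by ring
      rw [e2, e]
      nlinarith [mul_le_mul_of_nonneg_right ha' (by linarith : 0 ≤ T ^ 2),
        mul_le_mul_of_nonneg_left h2 hc0], by
      rw [e]
      nlinarith [mul_le_mul_of_nonneg_right ha (by linarith : 0 ≤ T ^ 2),
        mul_le_mul_of_nonneg_left h2 hc0]⟩)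
  exact ⟨t, ht⟩

theorem result : ∃ (n : ℕ) (p : Fin n → MvPolynomial (Fin n) ℝ), 1 ≤ n ∧ Good n p ∧
    Function.Surjective (fun (x : Fin n → ℝ) (i : Fin n) => eval x (p i)) := by
  refine ⟨3, P, by norm_num, ⟨?_, ?_, ?_, ?_, ?_⟩, ?_⟩
  · intro i
    fin_cases i
    · exact (ev0 0).trans (by simp)
    · exact (ev1 0).trans (by simp)
    · exact (ev2 0).trans (by simp)
  · intro i
    fin_cases i
    · show (P 0).totalDegree ≤ 1
      rw [totalDegree, s0]; simp [m1, m2]
    · show (P 1).totalDegree ≤ 2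
      rw [totalDegree, s1]; simp [m3, Finsupp.sum_add_index']
    · show (P 2).totalDegree ≤ 3
      rw [totalDegree, s2]; simp [m4, m5, Finsupp.sum_add_index']
  · apply Set.infinite_of_injective_forall_mem (f := fun z : ℝ => ![0, 0, z])
    · intro a b h
      simpa using congrFun h 2
    · intro z i
      fin_cases i
      · simp [ev0]
      · simp [ev1]
      · simp [ev2]
  · have e : (fun i => (P i).vars) = ![{0, 1}, {1, 2}, {0, 1, 2}] := by
      funext i
      fin_cases i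
      · exact v0
      · exact v1
      · exact v2
    rw [e]
    decide
  · intro i
    fin_cases i
    · show ∀ m ∈ (P 0).support, coeff m (P 0) = 1 ∨ coeff m (P 0) = -1
      rw [s0]
      simp [P, coeff_monomial, ne12, ne12.symm]
    · show ∀ m ∈ (P 1).support, coeff m (P 1) = 1 ∨ coeff m (P 1) = -1
      rw [s1]
      simp [P, coeff_monomial]
    · show ∀ m ∈ (P 2).support, coeff m (P 2) = 1 ∨ coeff m (P 2) = -1
      rw [s2]
      simp [P, coeff_monomial, ne45, ne45.symm]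
  · intro y
    by_cases hb : y 1 = 0
    · obtain ⟨t, ht⟩ := cubic (y 0) (y 2)
      refine ⟨![y 0 - t, t, 0], funext fun i => ?_⟩
      fin_cases i
      · simp [ev0]
      · simp [ev1, hb]
      · simp [ev2]; linear_combination ht
    · obtain ⟨t, ht0, ht⟩ := quartic (y 0) (y 1) (y 2) hb
      refine ⟨![y 0 - t, t, y 1 / t], funext fun i => ?_⟩
      fin_cases i
      · simp [ev0]
      · simp [ev1]; field_simp
      · simp [ev2]; field_simp; linear_combination ht

end Pool.Agent.Results.MP_07d99b_al.Example
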